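import Pool.Agent.X20.Tr.Fund

/-!
# The `p`-parts of the class groups of the imaginary quadratic fields of discriminant `-⌊α n ^ c⌋`

From Mathlib: `dimH E`: the Hausdorff dimension; `⌊x⌋₊`: the integer part; `Finset.Icc 1 N` and `Finset.Ioc 0 N`: the
integers from `1` to `N`; `NumberField.discr K`: the discriminant.
-/

set_option autoImplicit false

namespace Pool.Agent.Results.MP_0f260b_nt.AlongDilatedPowers

open Finset Filter NumberField
open Pool.Agent.X20.Tr hiding FundNeg
open Pool.Agent.Y854.PS (ms xs)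

/-- `-m` is the discriminant of an imaginary quadratic field: `-m ≡ 1 mod 4` is squarefree, or `-m = -4 k` with
`-k ≡ 2, 3 mod 4` squarefree. -/
def FundNeg (m : ℕ) : Prop :=
  (m % 4 = 3 ∧ Squarefree m) ∨ ∃ k : ℕ, m = 4 * k ∧ (k % 4 = 1 ∨ k % 4 = 2) ∧ Squarefree k

/-- `-m` is the discriminant of an imaginary quadratic field, and the `p`-part of the class group of this field is
isomorphic to the group `H`. -/
def PPart (p : ℕ) (H : Type) [CommGroup H] (m : ℕ) : Prop :=
  FundNeg m ∧ ∀ (K : Type) [Field K] [NumberField K], Module.finrank ℚ K = 2 → NumberField.discr K = -(m : ℤ) →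
    Nonempty (↥(Subgroup.closure {g : ClassGroup (𝓞 K) | ∃ n : ℕ, g ^ (p ^ n) = 1}) ≃* H)

/-- `-m` is the discriminant of an imaginary quadratic field, and the class group of this field has exactly `r`
elements killed by `q`. -/
def Torsion (q r m : ℕ) : Prop :=
  FundNeg m ∧ ∀ (K : Type) [Field K] [NumberField K], Module.finrank ℚ K = 2 → NumberField.discr K = -(m : ℤ) →
    Nat.card {g : ClassGroup (𝓞 K) // g ^ q = 1} = r

open Classical in
/-- The number of the `m ≤ X` with the property `P`. -/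
noncomputable def count (P : ℕ → Prop) (X : ℕ) : ℕ := ((Icc 1 X).filter P).card

open Classical in
/-- The number of the `n ≤ N` for which `⌊α n ^ c⌋` has the property `P`. -/
noncomputable def along (α c : ℝ) (P : ℕ → Prop) (N : ℕ) : ℕ :=
  ((Icc 1 N).filter (fun n : ℕ => P ⌊α * (n : ℝ) ^ c⌋₊)).card

/-- multiplication tables -/
abbrev Tab : Type := (n : ℕ) × (Fin n → Fin n → Fin n)

/-- the `p`-part has the multiplication table `t` -/
def PTab (p : ℕ) (t : Tab) (m : ℕ) : Prop :=
  FundNeg m ∧ ∀ (K : Type) [Field K] [NumberField K], Module.finrank ℚ K = 2 → NumberField.discr K = -(m : ℤ) →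
    ∃ f : ↥(Subgroup.closure {g : ClassGroup (𝓞 K) | ∃ n : ℕ, g ^ (p ^ n) = 1}) ≃ Fin t.1,
      ∀ x y, f (x * y) = t.2 (f x) (f y)

lemma exists_tab (H : Type) [CommGroup H] [Finite H] : ∃ t : Tab, ∀ (p m : ℕ), PPart p H m ↔ PTab p t m := by
  obtain ⟨n, ⟨e⟩⟩ := Finite.exists_equiv_fin H
  refine ⟨⟨n, fun i j => e (e.symm i * e.symm j)⟩, fun p m => ?_⟩
  unfold PPart PTab
  refine and_congr_right fun _ => ?_
  constructor
  · intro h K _ _ hK hd
    obtain ⟨g⟩ := h K hK hd
    refine ⟨g.toEquiv.trans e, fun x y => ?_⟩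
    show e (g (x * y)) = e (e.symm (e (g x)) * e.symm (e (g y)))
    rw [Equiv.symm_apply_apply, Equiv.symm_apply_apply, map_mul]
  · intro h K _ _ hK hd
    obtain ⟨f, hf⟩ := h K hK hd
    refine ⟨MulEquiv.mk (f.trans e.symm) fun x y => ?_⟩
    show e.symm (f (x * y)) = e.symm (f x) * e.symm (f y)
    rw [hf]
    show e.symm (e (e.symm (f x) * e.symm (f y))) = _
    rw [Equiv.symm_apply_apply]

lemma card_eq (s : Finset ℕ) {p q : ℕ → Prop} {dp : DecidablePred p} {dq : DecidablePred q}
    (h : ∀ x, p x ↔ q x) : (@Finset.filter ℕ p dp s).card = (@Finset.filter ℕ q dq s).card := by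
  congr 1
  ext x
  rw [mem_filter, mem_filter, h x]

lemma count_eq (P : ℕ → Prop) (X : ℕ) : count P X = cnt {m | P m} X := by
  unfold count cnt
  exact card_eq _ fun x => Iff.rfl

lemma along_eq (α c : ℝ) (P : ℕ → Prop) (N : ℕ) : along α c P N = hit c α {m | P m} N := by
  unfold along hit
  exact card_eq _ fun x => Iff.rfl

lemma main_iff {c α κ : ℝ} (hc : 1 < c) (hα : 0 < α) (hκ : 0 < κ) (hκ1 : κ < 1) (P : ℕ → Prop)
    (hP : ∀ m, P m → FundNeg m) (h1 : Cmp c α κ (ind {m | P m})) (h2 : Cmp c α κ (ind {m | FundNeg m})) (ρ : ℝ) :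
    Tendsto (fun X : ℕ => (count P X : ℝ) / count FundNeg X) atTop (nhds ρ) ↔
      Tendsto (fun N : ℕ => (along α c P N : ℝ) / along α c FundNeg N) atTop (nhds ρ) := by
  have e1 : (fun X : ℕ => (count P X : ℝ) / count FundNeg X) =
      fun X : ℕ => (cnt {m | P m} X : ℝ) / cnt {m | FundNeg m} X := by
    funext X
    rw [count_eq, count_eq]
  have e2 : (fun N : ℕ => (along α c P N : ℝ) / along α c FundNeg N) =
      fun N : ℕ => (hit c α {m | P m} N : ℝ) / hit c α {m | FundNeg m} N := by
    funext N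
    rw [along_eq, along_eq]
  rw [e1, e2]
  exact rel_dens_iff hc hα hκ hκ1 (fun m hm => hP m hm) h1 h2 fundNeg_lower ρ

open Classical in
/-- For every real `c > 1` there are `κ > 0` and a set `E` of real numbers of Hausdorff dimension at most `1 - κ`
such that for every real `α > 0` outside `E`, writing `m(n) = ⌊α n ^ c⌋`:

* for ALL `p`, all finite abelian groups `H` and every real `ρ`: the `p`-part of the class group is isomorphic to `H`
  with the probability `ρ` among the imaginary quadratic fields ordered by the discriminant if and only if it is so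
  among the imaginary quadratic fields of the discriminants `-m(n)`. In particular (`ρ = c_p / |Aut H|`) the conjecture
  of Cohen and Lenstra for `p` and `H` is equivalent to the same conjecture for the sparse family;
* the same for the condition that the class group has exactly `r` elements killed by `q`, for all `q`, `r`;
* (uniformity, power saving) for all large `N` and ALL `q, r ≤ N ^ κ` the number of the `n ≤ N` for which the class
  group of the field of discriminant `-m(n)` has exactly `r` elements killed by `q` is, up to `N ^ (1 - κ)`, the number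
  of all imaginary quadratic fields of discriminant `-m`, `m ≤ α N ^ c`, with this property, counted with the weights
  `(1 / c) α ^ (-1 / c) m ^ (1 / c - 1)` (the density of the sequence at `m`). -/
theorem result (c : ℝ) (hc : 1 < c) : ∃ κ : ℝ, 0 < κ ∧ κ < 1 ∧ ∃ E : Set ℝ, dimH E ≤ ENNReal.ofReal (1 - κ) ∧
    ∀ α : ℝ, 0 < α → α ∉ E →
      (∀ (p : ℕ) (H : Type) [CommGroup H] [Finite H] (ρ : ℝ),
        (Tendsto (fun X : ℕ => (count (PPart p H) X : ℝ) / count FundNeg X) atTop (nhds ρ) ↔
          Tendsto (fun N : ℕ => (along α c (PPart p H) N : ℝ) / along α c FundNeg N) atTop (nhds ρ))) ∧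
      (∀ (q r : ℕ) (ρ : ℝ),
        (Tendsto (fun X : ℕ => (count (Torsion q r) X : ℝ) / count FundNeg X) atTop (nhds ρ) ↔
          Tendsto (fun N : ℕ => (along α c (Torsion q r) N : ℝ) / along α c FundNeg N) atTop (nhds ρ))) ∧
      (∃ N₀ : ℕ, ∀ N : ℕ, N₀ ≤ N → ∀ q r : ℕ, (q : ℝ) ≤ (N : ℝ) ^ κ → (r : ℝ) ≤ (N : ℝ) ^ κ →
        |(along α c (Torsion q r) N : ℝ) - ∑ m ∈ (Ioc 0 ⌊α * (N : ℝ) ^ c⌋₊).filter (Torsion q r),
            1 / c * α ^ (-(1 / c)) * (m : ℝ) ^ (1 / c - 1)| ≤ (N : ℝ) ^ (1 - κ)) := by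
  obtain ⟨κ, hκ0, hκ1, H⟩ := two_fam c hc
  obtain ⟨E, hE, h⟩ := H (fun t => ind {m | Torsion (Nat.unpair t).1 (Nat.unpair t).2 m}) (fun t => ind_tri _)
    (Unit ⊕ (ℕ × Tab))
    (Sum.elim (fun _ => ind {m | FundNeg m}) (fun i => ind {m | PTab i.1 i.2 m}))
    (by
      rintro (a | b)
      · exact ind_tri _
      · exact ind_tri _)
  refine ⟨κ / 4, by positivity, by linarith, E, hE.trans (ENNReal.ofReal_le_ofReal (by linarith)),
    fun α hα hαE => ?_⟩
  obtain ⟨⟨N₁, h1⟩, h2, h3⟩ := h α hα hαE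
  have hF : Cmp c α κ (ind {m | FundNeg m}) := h3 (Sum.inl ())
  refine ⟨?_, ?_, ?_⟩
  · intro p H _ _ ρ
    obtain ⟨t, ht⟩ := exists_tab H
    have e : {m | PPart p H m} = {m | PTab p t m} := by
      ext m
      exact ht p m
    refine main_iff hc hα hκ0 hκ1 (PPart p H) (fun m hm => hm.1) ?_ hF ρ
    rw [e]
    exact h3 (Sum.inr (p, t))
  · intro q r ρ
    refine main_iff hc hα hκ0 hκ1 (Torsion q r) (fun m hm => hm.1) ?_ hF ρ
    have := h2 (Nat.pair q r)
    simp only [Nat.unpair_pair] at this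
    exact this
  · obtain ⟨N₂, h4⟩ := (((tend_pow (κ / 4) (by positivity)).eventually_ge_atTop 2).and
      (eventually_ge_atTop 1)).exists_forall_of_atTop
    refine ⟨max N₁ N₂, fun N hN q r hq hr => ?_⟩
    obtain ⟨k1, k2⟩ := h4 N ((le_max_right _ _).trans hN)
    have hN1 : (1 : ℝ) ≤ N := by exact_mod_cast k2
    have hN0 : (0 : ℝ) < N := by linarith
    have h5 := (h1 N ((le_max_left _ _).trans hN)).2 (Nat.pair q r) (by
      have h6 : ((Nat.pair q r : ℕ) : ℝ) ≤ ((max q r : ℕ) + 1 : ℝ) ^ 2 := by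
        have := Nat.pair_lt_max_add_one_sq q r
        exact_mod_cast this.le
      have h7 : ((max q r : ℕ) : ℝ) ≤ (N : ℝ) ^ (κ / 4) := by
        rw [Nat.cast_max]
        exact max_le hq hr
      refine h6.trans ?_
      have h8 : (N : ℝ) ^ κ = ((N : ℝ) ^ (κ / 4)) ^ 4 := by
        rw [← Real.rpow_natCast, ← Real.rpow_mul hN0.le]
        congr 1
        push_cast
        ring
      rw [h8]
      have h9 : (((max q r : ℕ) : ℝ) + 1) ^ 2 ≤ ((N : ℝ) ^ (κ / 4) + 1) ^ 2 :=
        pow_le_pow_left₀ (by positivity) (by linarith) 2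
      refine h9.trans ?_
      obtain ⟨y, hy⟩ : ∃ y : ℝ, y = (N : ℝ) ^ (κ / 4) := ⟨_, rfl⟩
      rw [← hy] at k1 ⊢
      have h10 : y + 1 ≤ y ^ 2 := by nlinarith
      calc (y + 1) ^ 2 ≤ (y ^ 2) ^ 2 := pow_le_pow_left₀ (by linarith) h10 2
        _ = y ^ 4 := by ring)
    simp only [Nat.unpair_pair] at h5
    have h11 : (N : ℝ) ^ (1 - κ) ≤ (N : ℝ) ^ (1 - κ / 4) := Real.rpow_le_rpow_of_exponent_le hN1 (by linarith)
    refine le_trans (le_of_eq ?_) (h5.trans h11)
    congr 1
    congr 1
    · rw [along_eq, sum_ind]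
      unfold hit
      rfl
    · rw [sum_filter]
      apply sum_congr rfl
      intro m _
      unfold ind wt
      show (if Torsion q r m then _ else (0 : ℝ)) = (if Torsion q r m then (1 : ℝ) else 0) * _
      split_ifs
      · rw [one_mul]
      · rw [zero_mul]

end Pool.Agent.Results.MP_0f260b_nt.AlongDilatedPowers
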