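import Pool.Agent.X32.Cls.Every

/-!
# Ideal classes of order `2 g` in imaginary quadratic fields with at most three ramified primes

(1) For every `g ≥ 1` the number of the imaginary quadratic fields `K` (subfields of `ℂ`) with `|D_K| ≤ X`, whose
discriminant `D_K` is squarefree and has AT MOST THREE prime factors, all of them larger than `X ^ (1/20)`, and whose
class group contains an element of order `2 g`, is at least `c X ^ (1/2 + 1/(2g)) / (log X) ^ 2`. With `g = p ^ k` this
gives the lower bound for the number of the fields with few ramified primes for which the `p`-part of the class group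
has the quotient `ℤ / p ^ k`.

(2) For every `g ≥ 1` and EVERY large integer `M` there are at least `κ M ^ g / (log M) ^ 2` primes
`p ∈ (M ^ g, 2 M ^ g]` such that `4 M ^ g - p` has at most two prime factors, `D = p (4 M ^ g - p)` is squarefree and
`≡ 3 mod 4`, and in the imaginary quadratic field of discriminant `-D` there is an ideal of norm `M` whose class has
the exact order `2 g`.
-/

set_option autoImplicit false

namespace Pool.Agent.Results.MP_0f260b_nt.FewRamifiedPrimes

open NumberField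

/-- `|D| ≤ X`, and `D` is squarefree with at most three prime factors, all of them larger than `X ^ (1/20)` -/
def FewPrimes (X : ℝ) (D : ℤ) : Prop :=
  |(D : ℝ)| ≤ X ∧ Squarefree D ∧ D.natAbs.primeFactorsList.length ≤ 3 ∧
    ∀ q : ℕ, q.Prime → q ∣ D.natAbs → X ^ (1 / 20 : ℝ) < q

/-- the class group of `K` contains an element of order `m` -/
def HasElement (K : Type) [Field K] [NumberField K] (m : ℕ) : Prop := ∃ c : ClassGroup (𝓞 K), orderOf c = m

/-- `K` is an imaginary quadratic field, its discriminant `D_K` satisfies `FewPrimes X D_K`, and its class group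
contains an element of order `2 g` -/
def Special (X : ℝ) (g : ℕ) (K : IntermediateField ℚ ℂ) : Prop :=
  ∃ _ : NumberField K, Module.finrank ℚ K = 2 ∧ (∃ x : K, (x : ℂ).im ≠ 0) ∧ FewPrimes X (discr K) ∧
    HasElement K (2 * g)

/-- `K` has a nonzero ideal of norm `M` whose class has the exact order `m` -/
def NormClass (K : Type) [Field K] [NumberField K] (M m : ℕ) : Prop :=
  ∃ I : nonZeroDivisors (Ideal (𝓞 K)), Ideal.absNorm (I : Ideal (𝓞 K)) = M ∧ orderOf (ClassGroup.mk0 I) = m

/-- every quadratic field of discriminant `-D` has an ideal of norm `M` whose class has the exact order `m` -/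
def HasClass (D M m : ℕ) : Prop :=
  ∀ (K : Type) [Field K] [NumberField K], Module.finrank ℚ K = 2 → discr K = -(D : ℤ) → NormClass K M m

/-- the conditions on the primes in (2) -/
def Pair (g M p : ℕ) : Prop :=
  p.Prime ∧ M ^ g < p ∧ p ≤ 2 * M ^ g ∧ (4 * M ^ g - p).primeFactorsList.length ≤ 2 ∧
    Squarefree (p * (4 * M ^ g - p)) ∧ (p * (4 * M ^ g - p)) % 4 = 3 ∧ HasClass (p * (4 * M ^ g - p)) M (2 * g)

theorem result (g : ℕ) (hg : 1 ≤ g) :
    (∃ c : ℝ, 0 < c ∧ ∃ X₀ : ℝ, ∀ X : ℝ, X₀ ≤ X →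
      c * X ^ (1 / 2 + 1 / (2 * g) : ℝ) / Real.log X ^ 2 ≤ (Set.ncard {K | Special X g K} : ℝ)) ∧
    ∃ κ : ℝ, 0 < κ ∧ ∃ M₀ : ℕ, ∀ M : ℕ, M₀ ≤ M → ∃ S : Finset ℕ,
      κ * (M : ℝ) ^ g / Real.log M ^ 2 ≤ (S.card : ℝ) ∧ ∀ p ∈ S, Pair g M p := by
  refine ⟨?_, Pool.Agent.X32.Cls.every g hg⟩
  obtain ⟨c, hc, X₀, h⟩ := Pool.Agent.X32.Cls.count g hg
  refine ⟨c, hc, X₀, fun X hX => (h X hX).trans (le_of_eq ?_)⟩
  congr 2
  ext K
  constructor
  · rintro ⟨h0, h1, h2, h3, h4, h5, h6, h7⟩
    exact ⟨h0, h1, h2, ⟨h3, h4, h5, h6⟩, h7⟩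
  · rintro ⟨h0, h1, h2, ⟨h3, h4, h5, h6⟩, h7⟩
    exact ⟨h0, h1, h2, h3, h4, h5, h6, h7⟩

end Pool.Agent.Results.MP_0f260b_nt.FewRamifiedPrimes
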