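import Pool.Agent.X220.CG.All

/-!
# Imaginary quadratic fields with a class of order `2 g` and prescribed fractional parts of polynomials in the discriminant

Let `Q_1, …, Q_s` be real polynomials of degree at most `d ≥ 1` whose vector of the coefficients of `x ^ d` is of finite
type: the distance of `h_1 α_1 + … + h_s α_s` to the nearest integer is at least `c₀ / |h| ^ τ` for all nonzero integral
vectors `h` (for example `α_1, …, α_s` are algebraic and `1, α_1, …, α_s` are linearly independent over the rational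
numbers).

(1) For ALL `M ≥ 2` and `g ≥ 1`, and for all large `H` with `4 M ^ g ≤ H ^ (2 - η)`, the number of the imaginary quadratic
fields `K` whose discriminant `- D` is squarefree, with at most `r` prime factors, all of them greater than `H ^ δ`, with `D`
in the interval between `A (4 M ^ g - A)` and `(A + H) (4 M ^ g - A - H)` (where `1 ≤ A ≤ A + H ≤ 2 M ^ g` is arbitrary),
for which all the fractional parts of `Q_i(D) - u_i` are less than `ρ_i`, and which have an ideal of norm `M` whose class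
has the exact order `2 g`, is at least `c H ρ_1 ⋯ ρ_s / (log H) ^ 2`. The numbers `r`, `δ`, `c` do not depend on `M`, `g`,
`A`, the polynomials, the `u_i` and the `ρ_i`, and the `ρ_i` may be as small as `H ^ (-δ)`. (For example `M = 2` and
`g → ∞`.)

(2) For every `g ≥ 1` the number of the imaginary quadratic fields with `|D_K| ≤ X`, with `D = |D_K|` squarefree with at
most `r` prime factors, all of them greater than `X ^ δ`, for which all the fractional parts of `Q_i(D) - u_i` are less than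
`ρ_i`, and for which the class group has an element of order `2 g`, is at least
`c X ^ (1/2 + 1/(2g)) ρ_1 ⋯ ρ_s / (log X) ^ 2`.

With `g = p ^ k` these are lower bounds for the number of the fields for which the `p`-part of the class group has the
quotient `ℤ / p ^ k`. The fields are `ℚ(√(- t (4 M ^ g - t)))`. The proof combines a sieve for linear forms which is uniform
in the forms (in the starting files and the library `X55.Fam`), Weyl's inequality, and a criterion for the order of a class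
(library `X32.Cls`).
-/

set_option autoImplicit false

namespace Pool.Agent.Results.MP_0f260b_nt.FractionalParts

open Finset Polynomial NumberField

/-- the vector `α` is of finite type, with the constants `c₀` and `τ` -/
def FiniteType {s : ℕ} (c₀ : ℝ) (τ : ℕ) (α : Fin s → ℝ) : Prop :=
  ∀ h : Fin s → ℤ, h ≠ 0 → ∀ a : ℤ, c₀ ≤ (∑ i, |(h i : ℝ)|) ^ τ * |(∑ i, h i * α i) - a|

/-- all the fractional parts of `Q_i(n) - u_i` are less than `ρ_i` -/
def InBox {s : ℕ} (Q : Fin s → ℝ[X]) (u ρ : Fin s → ℝ) (n : ℕ) : Prop :=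
  ∀ i, Int.fract ((Q i).eval (n : ℝ) - u i) < ρ i

/-- `m ≠ 0` has at most `r` prime factors, counted with multiplicity, all of them greater than `x`. -/
def AlmostPrime (r : ℕ) (x : ℝ) (m : ℕ) : Prop :=
  m ≠ 0 ∧ m.primeFactorsList.length ≤ r ∧ ∀ q : ℕ, q.Prime → q ∣ m → x < q

/-- `K` has a nonzero ideal of norm `M` whose class has the exact order `m` -/
def NormClass (K : Type) [Field K] [NumberField K] (M m : ℕ) : Prop :=
  ∃ I : nonZeroDivisors (Ideal (𝓞 K)), Ideal.absNorm (I : Ideal (𝓞 K)) = M ∧ orderOf (ClassGroup.mk0 I) = m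

/-- the class group of `K` contains an element of order `m` -/
def HasElement (K : Type) [Field K] [NumberField K] (m : ℕ) : Prop := ∃ c : ClassGroup (𝓞 K), orderOf c = m

/-- `K` is an imaginary quadratic field, and its discriminant is `-D`, where `D` is a squarefree number with at most `r`
prime factors, all of them greater than `x`, and all the fractional parts of `Q_i(D) - u_i` are less than `ρ_i` -/
def Disc {s : ℕ} (r : ℕ) (x : ℝ) (Q : Fin s → ℝ[X]) (u ρ : Fin s → ℝ) (K : IntermediateField ℚ ℂ) [NumberField K]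
    (D : ℕ) : Prop :=
  Module.finrank ℚ K = 2 ∧ (∃ z : K, (z : ℂ).im ≠ 0) ∧ discr K = -(D : ℤ) ∧ Squarefree D ∧ AlmostPrime r x D ∧
    InBox Q u ρ D

/-- the number of these fields with `X < D ≤ Y` which have an ideal of norm `M` whose class has the exact order `m` -/
noncomputable def countNorm {s : ℕ} (r : ℕ) (x : ℝ) (Q : Fin s → ℝ[X]) (u ρ : Fin s → ℝ) (M m X Y : ℕ) : ℕ :=
  Set.ncard {K : IntermediateField ℚ ℂ | ∃ _ : NumberField K, ∃ D : ℕ, X < D ∧ D ≤ Y ∧ Disc r x Q u ρ K D ∧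
    NormClass K M m}

/-- the number of these fields with `D ≤ X` for which the class group contains an element of order `m` -/
noncomputable def countAll {s : ℕ} (r : ℕ) (x : ℝ) (Q : Fin s → ℝ[X]) (u ρ : Fin s → ℝ) (m : ℕ) (X : ℝ) : ℕ :=
  Set.ncard {K : IntermediateField ℚ ℂ | ∃ _ : NumberField K, ∃ D : ℕ, (D : ℝ) ≤ X ∧ Disc r x Q u ρ K D ∧
    HasElement K m}

theorem result : (∀ (s d τ : ℕ) (c₀ : ℝ), 1 ≤ d → 0 < c₀ →
    -- all `M` and `g`, short intervals
    (∀ η : ℝ, 0 < η → ∃ (r : ℕ) (δ c : ℝ) (H₀ : ℕ), 0 < δ ∧ 0 < c ∧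
      ∀ H : ℕ, H₀ ≤ H → ∀ M g : ℕ, 2 ≤ M → 1 ≤ g → 4 * (M : ℝ) ^ g ≤ (H : ℝ) ^ (2 - η) →
      ∀ Q : Fin s → ℝ[X], (∀ i, (Q i).natDegree ≤ d) → FiniteType c₀ τ (fun i => (Q i).coeff d) →
      ∀ u ρ : Fin s → ℝ, (∀ i, (H : ℝ) ^ (-δ) ≤ ρ i ∧ ρ i ≤ 1) → ∀ A : ℕ, 1 ≤ A → A + H ≤ 2 * M ^ g →
      c * (H * ∏ i, ρ i) / Real.log H ^ 2 ≤
        countNorm r ((H : ℝ) ^ δ) Q u ρ M (2 * g) (A * (4 * M ^ g - A)) ((A + H) * (4 * M ^ g - (A + H)))) ∧
    -- all fields with bounded discriminant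
    (∀ g : ℕ, 1 ≤ g → ∃ (r : ℕ) (δ c X₀ : ℝ), 0 < δ ∧ 0 < c ∧ ∀ X : ℝ, X₀ ≤ X →
      ∀ Q : Fin s → ℝ[X], (∀ i, (Q i).natDegree ≤ d) → FiniteType c₀ τ (fun i => (Q i).coeff d) →
      ∀ u ρ : Fin s → ℝ, (∀ i, X ^ (-δ) ≤ ρ i ∧ ρ i ≤ 1) →
      c * (X ^ (1 / 2 + 1 / (2 * g) : ℝ) * ∏ i, ρ i) / Real.log X ^ 2 ≤ countAll r (X ^ δ) Q u ρ (2 * g) X)) ∧
    -- algebraic numbers
    (∀ (s : ℕ) (α : Fin s → ℝ), (∀ i, IsAlgebraic ℚ (α i)) →
      (∀ (h : Fin s → ℤ) (a : ℤ), ∑ i, (h i : ℝ) * α i = a → h = 0) →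
      ∃ (c₀ : ℝ) (τ : ℕ), 0 < c₀ ∧ FiniteType c₀ τ α) := by
  refine ⟨fun s d τ c₀ hd hc₀ => ⟨?_, ?_⟩, fun s α hα hind => Pool.Agent.X220.FP.liouville_vec s α hα hind⟩
  · intro η hη
    obtain ⟨r, δ, c, H₀, hδ, hc, h⟩ := Pool.Agent.X220.CG.count s d τ hd c₀ hc₀ η hη
    refine ⟨r, δ, c, H₀, hδ, hc, ?_⟩
    intro H hH M g hM hg hMg Q hQ hFT u ρ hρ A hA hAH
    refine (h H hH M g hM hg hMg Q hQ hFT u ρ hρ A hA hAH).trans (le_of_eq ?_)
    unfold countNorm
    congr 2
    ext K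
    constructor
    · rintro ⟨h0, h1, h2, D, h3, h4, h5, h6, h7, h8, h9⟩
      exact ⟨h0, D, h4, h5, ⟨h1, h2, h3, h6, h7, h8⟩, h9⟩
    · rintro ⟨h0, D, h4, h5, ⟨h1, h2, h3, h6, h7, h8⟩, h9⟩
      exact ⟨h0, h1, h2, D, h3, h4, h5, h6, h7, h8, h9⟩
  · intro g hg
    obtain ⟨r, δ, c, X₀, hδ, hc, h⟩ := Pool.Agent.X220.CG.all s d τ g hd hg c₀ hc₀
    refine ⟨r, δ, c, X₀, hδ, hc, ?_⟩
    intro X hX Q hQ hFT u ρ hρ
    refine (h X hX Q hQ hFT u ρ hρ).trans (le_of_eq ?_)
    unfold countAll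
    congr 2
    ext K
    constructor
    · rintro ⟨h0, h1, h2, D, h3, h4, h6, h7, h8, h9⟩
      exact ⟨h0, D, h4, ⟨h1, h2, h3, h6, h7, h8⟩, h9⟩
    · rintro ⟨h0, D, h4, ⟨h1, h2, h3, h6, h7, h8⟩, h9⟩
      exact ⟨h0, h1, h2, D, h3, h4, h6, h7, h8, h9⟩

end Pool.Agent.Results.MP_0f260b_nt.FractionalParts
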