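import Pool.Agent.X4.CG.Count

/-!
# Ideal classes of order `2 g` in imaginary quadratic fields: short intervals

For every `g ≥ 1`, every `ε > 0`, every large `X` and every `H` between `X ^ (3/4 - 1/(4g) + ε)` and `X` there are
at least `H X ^ (-1/2 + 1/(4g) - ε)` squarefree numbers `D ≡ 3 mod 4` with `X < D ≤ X + H` such that the class group
of the imaginary quadratic field of discriminant `-D` contains an element of the exact order `2 g`.

The numbers are `D = 4 M ^ (2 g) - t ^ 2 = (2 M ^ g - t) (2 M ^ g + t)`, where `M` is close to `(X / 4) ^ (1 / (2g))`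
and has few small odd prime factors, `t` is odd and prime to `M` and runs through an interval of a length of the order
`X ^ (1 / 4)`, and both factors are squarefree.
-/

set_option autoImplicit false

namespace Pool.Agent.Results.MP_0f260b_nt.ShortIntervals

open NumberField

/-- there is a quadratic field of discriminant `-D`, and the class group of every such field contains an element of
the exact order `m` -/
def HasOrder (D m : ℕ) : Prop :=
  (∃ K : IntermediateField ℚ ℂ, ∃ _ : NumberField K, Module.finrank ℚ K = 2 ∧ discr K = -(D : ℤ)) ∧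
    ∀ (K : Type) [Field K] [NumberField K], Module.finrank ℚ K = 2 → discr K = -(D : ℤ) →
      ∃ c : ClassGroup (𝓞 K), orderOf c = m

theorem result (g : ℕ) (hg : 1 ≤ g) (ε : ℝ) (hε : 0 < ε) : ∃ X₀ : ℕ, ∀ X : ℕ, X₀ ≤ X →
    ∀ H : ℝ, (X : ℝ) ^ (3 / 4 - 1 / (4 * g) + ε : ℝ) ≤ H → H ≤ X →
    ∃ S : Finset ℕ, H * (X : ℝ) ^ (-(1 / 2) + 1 / (4 * g) - ε : ℝ) ≤ S.card ∧
      ∀ D ∈ S, X < D ∧ (D : ℝ) ≤ X + H ∧ Squarefree D ∧ D % 4 = 3 ∧ HasOrder D (2 * g) := by
  obtain ⟨X₀, h⟩ := Pool.Agent.X4.CG.main2 g hg ε hε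
  refine ⟨X₀, fun X hX H hH1 hH2 => ?_⟩
  obtain ⟨S, h1, h2⟩ := h X hX H hH1 hH2
  refine ⟨S, h1, fun D hD => ?_⟩
  obtain ⟨k1, k2, k3, k4, k5⟩ := h2 D hD
  refine ⟨k1, k2, k3, k4, ?_, k5⟩
  obtain ⟨h0, h3, -, h5⟩ := Pool.Agent.X32.Cls.fld_spec k3 k4
  exact ⟨_, h0, h3, h5⟩

end Pool.Agent.Results.MP_0f260b_nt.ShortIntervals
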